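import Pool.Agent.N44.FA.Stm

/-!
# The ring of the project FA has no finite quotients besides those seen by the coordinates
-/

set_option autoImplicit false

namespace Pool.Agent.N861.FA

open Pool.Agent.N44.FA

theorem pm_mul {O : Type} [Fintype O] [DecidableEq O] (f g : O → O) (P Q : O → Bool) :
    pm f P * pm g Q = pm (fun b => f (g b)) (fun b => Q b && P (g b)) := by
  ext a b
  simp only [pm, Matrix.mul_apply, Matrix.of_apply]
  rw [Finset.sum_eq_single (g b)]
  · by_cases hQ : Q b = true <;> by_cases hP : P (g b) = true <;> simp [hQ, hP]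
  · intro c _ hc
    simp [hc]
  · simp

theorem pm_id {O : Type} [Fintype O] [DecidableEq O] :
    pm (fun b : O => b) (fun _ => true) = 1 := by
  ext a b
  simp [pm, Matrix.one_apply]

theorem two_M {O : Type} [Fintype O] [DecidableEq O] (a : Matrix O O (ZMod 2)) : a + a = 0 := by
  ext i j
  exact CharTwo.add_self_eq_zero _

theorem sh_sh' (k : ℕ) : sh k * sh' k = 1 := by
  rw [sh, sh', pm_mul, ← pm_id]
  congr 1
  funext b i
  simp

theorem sh'_sh (k : ℕ) : sh' k * sh k = 1 := by
  rw [sh, sh', pm_mul, ← pm_id]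
  congr 1
  funext b i
  simp

theorem sh_xx (k : ℕ) (j : ZMod (k + 1)) : sh k * xx k j * sh' k = xx k (j + 1) := by
  rw [sh, sh', xx, xx, pm_mul, pm_mul]
  congr 1
  · funext b i
    by_cases h : i = j + 1
    · subst h
      simp
    · have h' : i - 1 ≠ j := fun h' => h (by rw [← h']; ring)
      rw [Function.update_of_ne h, Function.update_of_ne h']
      congr 1
      ring
  · funext b
    simp

theorem sh_pow_xx (k m : ℕ) : sh k ^ m * xx k 0 * sh' k ^ m = xx k (m : ZMod (k + 1)) := by
  induction m with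
  | zero => simp
  | succ m ih =>
    have : sh k ^ (m + 1) * xx k 0 * sh' k ^ (m + 1)
        = sh k * (sh k ^ m * xx k 0 * sh' k ^ m) * sh' k := by
      rw [pow_succ', pow_succ]
      simp only [mul_assoc]
    rw [this, ih, sh_xx]
    push_cast
    rfl

theorem z2 (x : ZMod 2) : x = 0 ∨ x = 1 := by
  revert x
  decide

theorem xy0 (k : ℕ) (j : ZMod (k + 1)) : xx k j * yy k j + yy k j * xx k j = 1 := by
  rw [xx, yy, pm_mul, pm_mul]
  ext a b
  simp only [pm, Matrix.add_apply, Matrix.of_apply, Matrix.one_apply, Function.update_self,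
    Function.update_idem]
  rcases z2 (b j) with h | h
  · have h1 : Function.update b j 0 = b := by rw [← h, Function.update_eq_self]
    simp [h, h1]
  · have h1 : Function.update b j 1 = b := by rw [← h, Function.update_eq_self]
    simp [h, h1]

theorem xy1 (k : ℕ) (j : ZMod (k + 1)) (h : j ≠ 0) : xx k j * yy k 0 + yy k 0 * xx k j = 0 := by
  have h1 : xx k j * yy k 0 = yy k 0 * xx k j := by
    rw [xx, yy, pm_mul, pm_mul]
    congr 1
    · funext b
      exact Function.update_comm h.symm _ _ _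
    · funext b
      rw [Function.update_of_ne h, Function.update_of_ne h.symm, Bool.and_comm]
  rw [h1, two_M]

theorem shP : (sh : ∀ k, Mt k) * sh' = 1 := funext sh_sh'

theorem shP' : (sh' : ∀ k, Mt k) * sh = 1 := funext sh'_sh

theorem shn (n : ℕ) : (sh' : ∀ k, Mt k) ^ n * sh ^ n = 1 := by
  induction n with
  | zero => simp
  | succ n ih =>
    have : (sh' : ∀ k, Mt k) ^ (n + 1) * sh ^ (n + 1) = sh' ^ n * (sh' * sh) * sh ^ n := by
      rw [pow_succ, pow_succ']
      simp only [mul_assoc]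
    rw [this, shP', mul_one, ih]

theorem xR : (fun k => xx k 0 : ∀ k, Mt k) ∈ R := Algebra.subset_adjoin (by simp)

theorem yR : (fun k => yy k 0 : ∀ k, Mt k) ∈ R := Algebra.subset_adjoin (by simp)

theorem sR : (sh : ∀ k, Mt k) ∈ R := Algebra.subset_adjoin (by simp)

theorem s'R : (sh' : ∀ k, Mt k) ∈ R := Algebra.subset_adjoin (by simp)

/-- the ring of the project FA has no finite quotients besides those seen by the coordinates -/
theorem t_nfqr : S_NFQR := by
  intro I hI hs hf
  set X : ∀ k, Mt k := fun k => xx k 0 with hX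
  set Y : ∀ k, Mt k := fun k => yy k 0 with hY
  obtain ⟨i, j, hij, hd⟩ := hf (fun n => sh ^ n * X * sh' ^ n)
    (fun n => R.mul_mem (R.mul_mem (R.pow_mem sR n) xR) (R.pow_mem s'R n))
  obtain ⟨m, rfl⟩ := Nat.exists_eq_add_of_lt hij
  have hu : X - sh ^ (m + 1) * X * sh' ^ (m + 1) ∈ I := by
    have h1 := (hI _ (R.pow_mem s'R i) _ hd).1
    have h2 := (hI _ (R.pow_mem sR i) _ h1).2
    have e : sh' ^ i * (sh ^ i * X * sh' ^ i - sh ^ (i + m + 1) * X * sh' ^ (i + m + 1)) * sh ^ i
        = X - sh ^ (m + 1) * X * sh' ^ (m + 1) := by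
      have e1 : sh' ^ i * (sh ^ i * X * sh' ^ i) * sh ^ i
          = (sh' ^ i * sh ^ i) * X * (sh' ^ i * sh ^ i) := by
        simp only [mul_assoc]
      have e2 : sh' ^ i * (sh ^ (i + m + 1) * X * sh' ^ (i + m + 1)) * sh ^ i
          = (sh' ^ i * sh ^ i) * (sh ^ (m + 1) * X * sh' ^ (m + 1)) * (sh' ^ i * sh ^ i) := by
        rw [add_assoc, pow_add sh i (m + 1), add_comm i (m + 1), pow_add sh' (m + 1) i]
        simp only [mul_assoc]
      rw [mul_sub, sub_mul, e1, e2, shn, one_mul, mul_one, one_mul, mul_one]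
    exact e ▸ h2
  have hc := I.add_mem (hI _ yR _ hu).2 (hI _ yR _ hu).1
  have hc' : (X - sh ^ (m + 1) * X * sh' ^ (m + 1)) * Y + Y * (X - sh ^ (m + 1) * X * sh' ^ (m + 1))
      = 1 - ∑ k ∈ Finset.range (m + 1), Pi.single k (if ((m + 1 : ℕ) : ZMod (k + 1)) = 0 then
        (1 : Mt k) else 0) := by
    funext k
    have e : (sh ^ (m + 1) * X * sh' ^ (m + 1)) k = xx k ((m + 1 : ℕ) : ZMod (k + 1)) := by
      rw [Pi.mul_apply, Pi.mul_apply, Pi.pow_apply, Pi.pow_apply]
      exact sh_pow_xx k (m + 1)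
    have e2 : (∑ l ∈ Finset.range (m + 1), Pi.single l (if ((m + 1 : ℕ) : ZMod (l + 1)) = 0 then
        (1 : Mt l) else 0) : ∀ k, Mt k) k = if ((m + 1 : ℕ) : ZMod (k + 1)) = 0 then 1 else 0 := by
      rw [Finset.sum_apply]
      by_cases hk : k ∈ Finset.range (m + 1)
      · rw [Finset.sum_eq_single_of_mem k hk, Pi.single_eq_same]
        intro l _ hl
        exact Pi.single_eq_of_ne hl.symm _
      · rw [Finset.sum_eq_zero, if_neg]
        · intro h0
          rw [ZMod.natCast_eq_zero_iff] at h0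
          have := Nat.le_of_dvd (Nat.succ_pos _) h0
          rw [Finset.mem_range] at hk
          omega
        · intro l hl
          have hne : k ≠ l := by
            rintro rfl
            exact hk hl
          exact Pi.single_eq_of_ne hne _
    rw [Pi.sub_apply, e2, Pi.add_apply, Pi.mul_apply, Pi.mul_apply, Pi.sub_apply, e]
    simp only [hX, hY, Pi.one_apply]
    have e3 : (xx k 0 - xx k ((m + 1 : ℕ) : ZMod (k + 1))) * yy k 0 +
        yy k 0 * (xx k 0 - xx k ((m + 1 : ℕ) : ZMod (k + 1)))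
        = (xx k 0 * yy k 0 + yy k 0 * xx k 0) -
          (xx k ((m + 1 : ℕ) : ZMod (k + 1)) * yy k 0 +
            yy k 0 * xx k ((m + 1 : ℕ) : ZMod (k + 1))) := by
      rw [sub_mul, mul_sub]
      abel
    rw [e3, xy0]
    by_cases h0 : ((m + 1 : ℕ) : ZMod (k + 1)) = 0
    · rw [h0, if_pos rfl, xy0]
    · rw [if_neg h0, xy1 _ _ h0]
  rw [hc'] at hc
  have hsum : (∑ k ∈ Finset.range (m + 1), Pi.single k (if ((m + 1 : ℕ) : ZMod (k + 1)) = 0 then
        (1 : Mt k) else 0) : ∀ k, Mt k) ∈ I := I.sum_mem fun k _ => hs k _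
  simpa using I.add_mem hc hsum

end Pool.Agent.N861.FA
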